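import Pool.Agent.H63.WS.Stm

set_option autoImplicit false

/-!
# Project WS (helper63), part STEP (helper34)

One-sided approximation of a step function in the angle by combinations of Chebyshev polynomials.
-/

namespace Pool.Agent.H34.WS.STEP

open Finset Pool.Agent.H63.WS

noncomputable section

/-- Chebyshev polynomials of the second kind with integral index -/
def Uz (n : ℤ) (x : ℝ) : ℝ := (Polynomial.Chebyshev.U ℝ n).eval x

lemma Uc_eq (k : ℕ) (x : ℝ) : Uc k x = Uz (k : ℤ) x := rfl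

lemma cos_U (n : ℤ) (t : ℝ) :
    2 * Real.cos (n * t) = Uz n (Real.cos t) - Uz (n - 2) (Real.cos t) := by
  have h1 := Polynomial.Chebyshev.T_real_cos t n
  have h2 := Polynomial.Chebyshev.two_mul_T_eq_U_sub_U ℝ (n - 2)
  have h3 := congrArg (Polynomial.eval (Real.cos t)) h2
  rw [sub_add_cancel] at h3
  simp only [Polynomial.eval_mul, Polynomial.eval_sub, Polynomial.eval_ofNat] at h3
  rw [h1] at h3
  exact h3

/-- the coefficients in the `U_k` of a cosine polynomial -/
def cf (b : ℕ → ℝ) (j : ℕ) : ℝ := (if j = 0 then b 0 else b j / 2) - b (j + 2) / 2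

lemma cf_comb (b : ℕ → ℝ) (t : ℝ) (M : ℕ) (hM : 1 ≤ M) :
    ∑ j ∈ range M, b j * Real.cos (j * t) = comb M (cf b) (Real.cos t) +
      (b M * Uz ((M : ℤ) - 2) (Real.cos t) + b (M + 1) * Uz ((M : ℤ) - 1) (Real.cos t)) / 2 := by
  induction M, hM using Nat.le_induction with
  | base =>
    have e1 : Uz (((1 : ℕ) : ℤ) - 2) (Real.cos t) = 0 := by
      unfold Uz
      rw [show (((1 : ℕ) : ℤ) - 2) = -1 by norm_num, Polynomial.Chebyshev.U_neg_one,
        Polynomial.eval_zero]
    have e2 : Uz (((1 : ℕ) : ℤ) - 1) (Real.cos t) = 1 := by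
      unfold Uz
      rw [show (((1 : ℕ) : ℤ) - 1) = 0 by norm_num, Polynomial.Chebyshev.U_zero,
        Polynomial.eval_one]
    have e3 : Uc 0 (Real.cos t) = 1 := by
      unfold Uc
      rw [Nat.cast_zero, Polynomial.Chebyshev.U_zero, Polynomial.eval_one]
    rw [e1, e2]
    unfold comb
    rw [sum_range_one, sum_range_one, e3]
    unfold cf
    rw [if_pos rfl, Nat.cast_zero, zero_mul, Real.cos_zero]
    ring
  | succ M hM ih =>
    have h1 := cos_U (M : ℤ) t
    rw [Int.cast_natCast] at h1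
    have e1 : (((M + 1 : ℕ) : ℤ) - 2) = (M : ℤ) - 1 := by push_cast; ring
    have e2 : (((M + 1 : ℕ) : ℤ) - 1) = (M : ℤ) := by push_cast; ring
    rw [e1, e2, sum_range_succ, ih]
    unfold comb
    rw [sum_range_succ, Uc_eq M]
    have e3 : cf b M = b M / 2 - b (M + 2) / 2 := by
      unfold cf
      rw [if_neg (by omega)]
    rw [e3]
    linear_combination (b M / 2) * h1

/-- a cosine polynomial as a combination of the `U_k` -/
lemma cf_cut (b : ℕ → ℝ) (t : ℝ) (M : ℕ) (hM : 1 ≤ M) (hb : ∀ j, M ≤ j → b j = 0) :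
    comb M (cf b) (Real.cos t) = ∑ j ∈ range M, b j * Real.cos (j * t) := by
  rw [cf_comb b t M hM, hb M le_rfl, hb (M + 1) (Nat.le_succ M)]
  ring

lemma split_sum (b : ℕ → ℝ) (t : ℝ) (M : ℕ) (hM : 1 ≤ M) :
    ∑ j ∈ range M, b j * Real.cos (j * t) = b 0 + ∑ j ∈ Ico 1 M, b j * Real.cos (j * t) := by
  rw [range_eq_Ico, ← sum_Ico_consecutive _ (Nat.zero_le 1) hM]
  simp

/-- orthogonality -/
lemma int_cos (n : ℕ) : ∫ t in (0 : ℝ)..Real.pi, Real.cos (n * t) = if n = 0 then Real.pi else 0 := by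
  by_cases hn : n = 0
  · rw [if_pos hn, hn]
    simp
  · rw [if_neg hn]
    have hn' : (n : ℝ) ≠ 0 := Nat.cast_ne_zero.2 hn
    rw [intervalIntegral.integral_comp_mul_left (fun x => Real.cos x) hn', integral_cos,
      mul_zero, Real.sin_zero, sub_zero, Real.sin_nat_mul_pi, smul_zero]

lemma int_U (k : ℕ) : ∫ t in (0 : ℝ)..Real.pi, Uc k (Real.cos t) * Real.sin t ^ 2 =
    if k = 0 then Real.pi / 2 else 0 := by
  have h1 : ∀ t : ℝ, Uc k (Real.cos t) * Real.sin t ^ 2 =
      1 / 2 * Real.cos ((k : ℕ) * t) - 1 / 2 * Real.cos (((k + 2 : ℕ) : ℝ) * t) := by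
    intro t
    have h2 := Polynomial.Chebyshev.U_real_cos t (k : ℤ)
    have h3 : Uc k (Real.cos t) * Real.sin t = Real.sin ((k + 1) * t) := by
      have h4 := h2
      rw [Int.cast_natCast] at h4
      exact h4
    have h5 : Uc k (Real.cos t) * Real.sin t ^ 2 = Real.sin ((k + 1) * t) * Real.sin t := by
      rw [← h3]; ring
    have h6 : (k : ℝ) * t = (k + 1) * t - t := by ring
    have h7 : ((k + 2 : ℕ) : ℝ) * t = (k + 1) * t + t := by push_cast; ring
    rw [h5, h6, h7, Real.cos_sub, Real.cos_add]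
    ring
  have h8 : ∀ n : ℕ, IntervalIntegrable (fun t : ℝ => 1 / 2 * Real.cos ((n : ℝ) * t))
      MeasureTheory.volume 0 Real.pi := fun n =>
    (continuous_const.mul (Real.continuous_cos.comp (continuous_const.mul continuous_id))).intervalIntegrable _ _
  rw [intervalIntegral.integral_congr (g := fun t : ℝ => 1 / 2 * Real.cos ((k : ℕ) * t) -
    1 / 2 * Real.cos (((k + 2 : ℕ) : ℝ) * t)) (fun t _ => h1 t),
    intervalIntegral.integral_sub (h8 k) (h8 (k + 2)), intervalIntegral.integral_const_mul,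
    intervalIntegral.integral_const_mul, int_cos, int_cos, if_neg (by omega : ¬ k + 2 = 0)]
  by_cases hk : k = 0
  · rw [if_pos hk, if_pos hk]; ring
  · rw [if_neg hk, if_neg hk]; ring

lemma Uc_cont (k : ℕ) : Continuous (fun t : ℝ => Uc k (Real.cos t)) :=
  (Polynomial.continuous _).comp Real.continuous_cos

lemma comb_cont (M : ℕ) (c : ℕ → ℝ) : Continuous (fun t : ℝ => comb M c (Real.cos t)) :=
  continuous_finsetSum _ fun k _ => continuous_const.mul (Uc_cont k)

lemma int_comb (M : ℕ) (hM : 1 ≤ M) (c : ℕ → ℝ) :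
    ∫ t in (0 : ℝ)..Real.pi, comb M c (Real.cos t) * Real.sin t ^ 2 = c 0 * (Real.pi / 2) := by
  have h1 : ∀ t : ℝ, comb M c (Real.cos t) * Real.sin t ^ 2 =
      ∑ k ∈ range M, c k * (Uc k (Real.cos t) * Real.sin t ^ 2) := by
    intro t
    unfold comb
    rw [sum_mul]
    exact sum_congr rfl fun k _ => by ring
  have h2 : ∀ k ∈ range M, IntervalIntegrable (fun t : ℝ =>
      c k * (Uc k (Real.cos t) * Real.sin t ^ 2)) MeasureTheory.volume 0 Real.pi := fun k _ =>
    (continuous_const.mul ((Uc_cont k).mul (Real.continuous_sin.pow 2))).intervalIntegrable _ _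
  rw [intervalIntegral.integral_congr (fun t _ => h1 t), intervalIntegral.integral_finsetSum h2]
  have h3 : ∀ k ∈ range M, ∫ t in (0 : ℝ)..Real.pi, c k * (Uc k (Real.cos t) * Real.sin t ^ 2) =
      if k = 0 then c 0 * (Real.pi / 2) else 0 := by
    intro k _
    rw [intervalIntegral.integral_const_mul, int_U]
    by_cases hk : k = 0
    · rw [if_pos hk, if_pos hk, hk]
    · rw [if_neg hk, if_neg hk, mul_zero]
  rw [sum_congr rfl h3, sum_ite_eq' (range M) 0 (fun _ => c 0 * (Real.pi / 2)),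
    if_pos (mem_range.2 (by omega))]

/-- the value of the Fejér kernel at `0` -/
lemma fej_zero (M : ℕ) (hM : 1 ≤ M) : fej M 0 = M := by
  have hM0 : (M : ℝ) ≠ 0 := Nat.cast_ne_zero.2 (by omega)
  have h1 : ∀ k ∈ Ico 1 M, (1 - (k : ℝ) / M) * Real.cos (2 * Real.pi * k * 0) =
      1 - (k : ℝ) / M := fun k _ => by rw [mul_zero, Real.cos_zero, mul_one]
  unfold fej
  rw [sum_congr rfl h1, sum_sub_distrib, ← sum_div]
  have h2 : ∑ k ∈ Ico 1 M, (k : ℝ) = (M : ℝ) * (M - 1) / 2 := by
    have h3 : ∑ k ∈ Ico 1 M, (k : ℝ) = ∑ k ∈ range M, (k : ℝ) := by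
      rw [range_eq_Ico, ← sum_Ico_consecutive _ (Nat.zero_le 1) hM]
      simp
    have h4 := Finset.sum_range_id_mul_two M
    have h5 : ((∑ i ∈ range M, i : ℕ) : ℝ) * 2 = (M : ℝ) * ((M - 1 : ℕ) : ℝ) := by
      exact_mod_cast h4
    rw [Nat.cast_sub hM, Nat.cast_sum, Nat.cast_one] at h5
    rw [h3]
    linarith
  rw [h2, sum_const, Nat.card_Ico, nsmul_eq_mul, Nat.cast_sub hM, Nat.cast_one]
  field_simp
  ring

/-- **STEP** -/
theorem t_step (h1 : S_FEJ) (h2 : S_VAAL) : S_STEP := by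
  intro M β hM hβ hβπ
  have hpi := Real.pi_pos
  have hM0 : (0 : ℝ) < M := Nat.cast_pos.2 hM
  have hM1 : (1 : ℝ) ≤ M := Nat.one_le_cast.2 hM
  obtain ⟨v, hv⟩ := h2 M hM
  obtain ⟨V, hV⟩ : ∃ V : ℝ → ℝ, V = fun x => ∑ k ∈ Ico 1 M, v k * Real.sin (2 * Real.pi * k * x) :=
    ⟨_, rfl⟩
  have hv1 : ∀ x : ℝ, 0 < x → x < 1 → |x - 1 / 2 - V x| ≤ 1 / (2 * M) * fej M x := by
    intro x a1 a2
    rw [hV]
    exact hv x a1 a2
  have hVper : ∀ x, V (x + 1) = V x := by
    intro x
    rw [hV]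
    refine sum_congr rfl fun k _ => ?_
    have e1 : 2 * Real.pi * k * (x + 1) = 2 * Real.pi * k * x + k * (2 * Real.pi) := by ring
    rw [e1, Real.sin_add_nat_mul_two_pi]
  have hV0 : V 0 = 0 := by
    rw [hV]
    exact sum_eq_zero fun k _ => by rw [mul_zero, Real.sin_zero, mul_zero]
  have hv2 : ∀ x : ℝ, -1 < x → x < 0 → |x + 1 / 2 - V x| ≤ 1 / (2 * M) * fej M x := by
    intro x a1 a2
    have e1 := hv1 (x + 1) (by linarith) (by linarith)
    rw [hVper, (h1 M x hM).2.2.2.1] at e1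
    have e2 : x + 1 - 1 / 2 - V x = x + 1 / 2 - V x := by ring
    rwa [e2] at e1
  -- the coefficients
  obtain ⟨bp, hbp⟩ : ∃ b : ℕ → ℝ, b = fun k => if k = 0 then β / Real.pi else
    if k < M then -(2 * v k * Real.sin (k * β)) else 0 := ⟨_, rfl⟩
  obtain ⟨be, hbe⟩ : ∃ b : ℕ → ℝ, b = fun k => if k = 0 then 1 / (M : ℝ) else
    if k < M then 2 / M * (1 - (k : ℝ) / M) * Real.cos (k * β) else 0 := ⟨_, rfl⟩
  have bp0 : bp 0 = β / Real.pi := by rw [hbp]; exact if_pos rfl
  have be0 : be 0 = 1 / (M : ℝ) := by rw [hbe]; exact if_pos rfl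
  have bpM : ∀ j, M ≤ j → bp j = 0 := by
    intro j hj
    rw [hbp]
    show (if j = 0 then _ else if j < M then _ else (0 : ℝ)) = 0
    rw [if_neg (by omega), if_neg (by omega)]
  have beM : ∀ j, M ≤ j → be j = 0 := by
    intro j hj
    rw [hbe]
    show (if j = 0 then _ else if j < M then _ else (0 : ℝ)) = 0
    rw [if_neg (by omega), if_neg (by omega)]
  have bpk : ∀ k ∈ Ico 1 M, bp k = -(2 * v k * Real.sin (k * β)) := by
    intro k hk
    rw [mem_Ico] at hk
    rw [hbp]
    show (if k = 0 then _ else if k < M then _ else (0 : ℝ)) = _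
    rw [if_neg (by omega), if_pos hk.2]
  have bek : ∀ k ∈ Ico 1 M, be k = 2 / M * (1 - (k : ℝ) / M) * Real.cos (k * β) := by
    intro k hk
    rw [mem_Ico] at hk
    rw [hbe]
    show (if k = 0 then _ else if k < M then _ else (0 : ℝ)) = _
    rw [if_neg (by omega), if_pos hk.2]
  -- the two functions
  have hP : ∀ t : ℝ, comb M (cf bp) (Real.cos t) =
      β / Real.pi + V ((t - β) / (2 * Real.pi)) - V ((t + β) / (2 * Real.pi)) := by
    intro t
    rw [cf_cut bp t M hM bpM, split_sum bp t M hM, bp0, add_sub_assoc, hV, ← sum_sub_distrib]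
    refine congrArg (β / Real.pi + ·) (sum_congr rfl fun k hk => ?_)
    have e1 : 2 * Real.pi * k * ((t - β) / (2 * Real.pi)) = k * t - k * β := by
      field_simp
    have e2 : 2 * Real.pi * k * ((t + β) / (2 * Real.pi)) = k * t + k * β := by
      field_simp
    rw [bpk k hk, e1, e2, Real.sin_sub, Real.sin_add]
    ring
  have hE : ∀ t : ℝ, comb M (cf be) (Real.cos t) =
      1 / (2 * M) * fej M ((t - β) / (2 * Real.pi)) +
        1 / (2 * M) * fej M ((t + β) / (2 * Real.pi)) := by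
    intro t
    rw [cf_cut be t M hM beM, split_sum be t M hM, be0]
    unfold fej
    have e0 : ∀ k ∈ Ico 1 M, be k * Real.cos (k * t) = 1 / M *
        ((1 - (k : ℝ) / M) * Real.cos (2 * Real.pi * k * ((t - β) / (2 * Real.pi)))) +
        1 / M * ((1 - (k : ℝ) / M) * Real.cos (2 * Real.pi * k * ((t + β) / (2 * Real.pi)))) := by
      intro k hk
      have e1 : 2 * Real.pi * k * ((t - β) / (2 * Real.pi)) = k * t - k * β := by
        field_simp
      have e2 : 2 * Real.pi * k * ((t + β) / (2 * Real.pi)) = k * t + k * β := by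
        field_simp
      rw [bek k hk, e1, e2, Real.cos_sub, Real.cos_add]
      ring
    rw [sum_congr rfl e0, sum_add_distrib, ← mul_sum, ← mul_sum]
    have key : ∀ S1 S2 : ℝ, 1 / (M : ℝ) + (1 / M * S1 + 1 / M * S2) =
        1 / (2 * M) * (1 + 2 * S1) + 1 / (2 * M) * (1 + 2 * S2) := by
      intro S1 S2
      field_simp
      ring
    exact key _ _
  have hmain : ∀ t ∈ Set.Icc (0 : ℝ) Real.pi, ∀ c ∈ Set.Icc (0 : ℝ) 1, (t < β → c = 1) →
      (β < t → c = 0) → |c - comb M (cf bp) (Real.cos t)| ≤ comb M (cf be) (Real.cos t) := by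
    intro t ht c hc c1 c2
    rw [hP t, hE t]
    have h2π : 0 < 2 * Real.pi := by linarith
    obtain ⟨x1, hx1⟩ : ∃ x1, x1 = (t - β) / (2 * Real.pi) := ⟨_, rfl⟩
    obtain ⟨x2, hx2⟩ : ∃ x2, x2 = (t + β) / (2 * Real.pi) := ⟨_, rfl⟩
    rw [← hx1, ← hx2]
    have hx : x2 - x1 = β / Real.pi := by
      rw [hx1, hx2]
      field_simp
      ring
    have hx2a : 0 < x2 := by rw [hx2]; exact div_pos (by linarith [ht.1]) h2π
    have hx2b : x2 < 1 := by rw [hx2, div_lt_one h2π]; linarith [ht.2]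
    have b2 := hv1 x2 hx2a hx2b
    rcases lt_trichotomy t β with hlt | heq | hgt
    · have hx1a : x1 < 0 := by rw [hx1]; exact div_neg_of_neg_of_pos (by linarith) h2π
      have hx1b : -1 < x1 := by rw [hx1, lt_div_iff₀ h2π]; linarith [ht.1]
      have b1 := hv2 x1 hx1b hx1a
      rw [c1 hlt]
      have e1 : 1 - (β / Real.pi + V x1 - V x2) =
          (x1 + 1 / 2 - V x1) - (x2 - 1 / 2 - V x2) := by rw [← hx]; ring
      rw [e1]
      exact (abs_sub _ _).trans (add_le_add b1 b2)
    · have hx10 : x1 = 0 := by rw [hx1, heq, sub_self, zero_div]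
      rw [hx10, hV0, fej_zero M hM]
      have hx' : x2 = β / Real.pi := by rw [← hx, hx10, sub_zero]
      have e1 : c - (β / Real.pi + 0 - V x2) = (c - 1 / 2) - (x2 - 1 / 2 - V x2) := by
        rw [← hx']; ring
      rw [e1]
      refine (abs_sub _ _).trans (add_le_add ?_ b2)
      have e2 : 1 / (2 * (M : ℝ)) * M = 1 / 2 := by field_simp
      rw [e2, abs_le]
      constructor <;> linarith [hc.1, hc.2]
    · have hx1a : 0 < x1 := by rw [hx1]; exact div_pos (by linarith) h2π
      have hx1b : x1 < 1 := by rw [hx1, div_lt_one h2π]; linarith [ht.2]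
      have b1 := hv1 x1 hx1a hx1b
      rw [c2 hgt]
      have e1 : 0 - (β / Real.pi + V x1 - V x2) =
          (x1 - 1 / 2 - V x1) - (x2 - 1 / 2 - V x2) := by rw [← hx]; ring
      rw [e1]
      exact (abs_sub _ _).trans (add_le_add b1 b2)
  -- the constant coefficient of `E`
  have he0 : cf be 0 = 1 / M * (1 - (if 2 < M then (1 - 2 / M) * Real.cos (2 * β) else 0)) := by
    unfold cf
    rw [if_pos rfl, be0, zero_add]
    by_cases h3 : 2 < M
    · rw [if_pos h3, bek 2 (mem_Ico.2 ⟨by norm_num, h3⟩)]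
      push_cast
      ring
    · rw [if_neg h3, beM 2 (by omega)]
      ring
  refine ⟨cf bp, cf be, ?_, ?_, hmain, ?_, ?_⟩
  · rw [he0]
    have h3 : (if 2 < M then (1 - 2 / (M : ℝ)) * Real.cos (2 * β) else 0) ≥ -1 := by
      by_cases h3 : 2 < M
      · rw [if_pos h3]
        have h4 : (2 : ℝ) < M := by exact_mod_cast h3
        have h5 : 0 ≤ 1 - 2 / (M : ℝ) := by
          rw [sub_nonneg, div_le_one hM0]
          exact h4.le
        have h6 : 1 - 2 / (M : ℝ) ≤ 1 := by
          have : 0 ≤ 2 / (M : ℝ) := by positivity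
          linarith
        have h7 := Real.neg_one_le_cos (2 * β)
        nlinarith
      · rw [if_neg h3]
        norm_num
    have h4 : 1 / (M : ℝ) * (1 - (if 2 < M then (1 - 2 / (M : ℝ)) * Real.cos (2 * β) else 0)) ≤
        1 / (M : ℝ) * 2 := mul_le_mul_of_nonneg_left (by linarith) (by positivity)
    exact h4.trans (le_of_eq (by ring))
  · intro h3
    rw [he0]
    by_cases h4 : 2 < M
    · rw [if_pos h4]
    · have h5 : M = 2 := by omega
      rw [if_neg h4, h5]
      norm_num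
  · intro t _
    rw [hE t]
    have e1 := (h1 M ((t - β) / (2 * Real.pi)) hM).2.2.1
    have e2 := (h1 M ((t + β) / (2 * Real.pi)) hM).2.2.1
    have e3 : 0 ≤ 1 / (2 * (M : ℝ)) := by positivity
    have e4 : 1 / (2 * (M : ℝ)) * M = 1 / 2 := by field_simp
    have e5 := mul_le_mul_of_nonneg_left e1 e3
    have e6 := mul_le_mul_of_nonneg_left e2 e3
    rw [e4] at e5 e6
    linarith
  · -- the mean values
    have i1 : ∀ (c : ℕ → ℝ) (a b : ℝ), IntervalIntegrable
        (fun t : ℝ => comb M c (Real.cos t) * Real.sin t ^ 2) MeasureTheory.volume a b :=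
      fun c a b => ((comb_cont M c).mul (Real.continuous_sin.pow 2)).intervalIntegrable _ _
    have i2 : ∀ a b : ℝ, IntervalIntegrable (fun t : ℝ => Real.sin t ^ 2)
        MeasureTheory.volume a b := fun a b => (Real.continuous_sin.pow 2).intervalIntegrable _ _
    have hp := int_comb M hM (cf bp)
    have he := int_comb M hM (cf be)
    rw [← intervalIntegral.integral_add_adjacent_intervals (i1 _ 0 β) (i1 _ β Real.pi)] at hp he
    -- first interval
    have j1 : |(∫ t in (0 : ℝ)..β, Real.sin t ^ 2) -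
        ∫ t in (0 : ℝ)..β, comb M (cf bp) (Real.cos t) * Real.sin t ^ 2| ≤
        ∫ t in (0 : ℝ)..β, comb M (cf be) (Real.cos t) * Real.sin t ^ 2 := by
      rw [← intervalIntegral.integral_sub (i2 0 β) (i1 _ 0 β)]
      refine (intervalIntegral.abs_integral_le_integral_abs hβ.le).trans ?_
      refine intervalIntegral.integral_mono_on hβ.le ((i2 0 β).sub (i1 _ 0 β)).abs (i1 _ 0 β)
        fun t ht => ?_
      have e1 := hmain t ⟨ht.1, ht.2.trans hβπ.le⟩ 1 ⟨zero_le_one, le_rfl⟩ (fun _ => rfl)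
        (fun h => absurd ht.2 (not_le.2 h))
      have e2 : Real.sin t ^ 2 - comb M (cf bp) (Real.cos t) * Real.sin t ^ 2 =
          (1 - comb M (cf bp) (Real.cos t)) * Real.sin t ^ 2 := by ring
      rw [e2, abs_mul, abs_of_nonneg (sq_nonneg (Real.sin t))]
      exact mul_le_mul_of_nonneg_right e1 (sq_nonneg _)
    have j2 : |∫ t in β..Real.pi, comb M (cf bp) (Real.cos t) * Real.sin t ^ 2| ≤
        ∫ t in β..Real.pi, comb M (cf be) (Real.cos t) * Real.sin t ^ 2 := by
      refine (intervalIntegral.abs_integral_le_integral_abs hβπ.le).trans ?_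
      refine intervalIntegral.integral_mono_on hβπ.le (i1 _ β Real.pi).abs (i1 _ β Real.pi)
        fun t ht => ?_
      have e1 := hmain t ⟨hβ.le.trans ht.1, ht.2⟩ 0 ⟨le_rfl, zero_le_one⟩
        (fun h => absurd ht.1 (not_le.2 h)) (fun _ => rfl)
      rw [zero_sub, abs_neg] at e1
      rw [abs_mul, abs_of_nonneg (sq_nonneg (Real.sin t))]
      exact mul_le_mul_of_nonneg_right e1 (sq_nonneg _)
    have k1 : cf bp 0 = 2 / Real.pi *
        ((∫ t in (0 : ℝ)..β, comb M (cf bp) (Real.cos t) * Real.sin t ^ 2) +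
        ∫ t in β..Real.pi, comb M (cf bp) (Real.cos t) * Real.sin t ^ 2) := by
      rw [hp]
      field_simp
    have k2 : cf be 0 = 2 / Real.pi *
        ((∫ t in (0 : ℝ)..β, comb M (cf be) (Real.cos t) * Real.sin t ^ 2) +
        ∫ t in β..Real.pi, comb M (cf be) (Real.cos t) * Real.sin t ^ 2) := by
      rw [he]
      field_simp
    rw [k1, k2, ← mul_sub, abs_mul, abs_of_pos (by positivity : 0 < 2 / Real.pi)]
    refine mul_le_mul_of_nonneg_left ?_ (by positivity)
    rw [← sub_sub]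
    exact (abs_sub _ _).trans (add_le_add j1 j2)

end

end Pool.Agent.H34.WS.STEP
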